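import Pool.Agent.Lib.MP_ea1188_al.KG.IfaceB

/-! # Module K1: `K₁` as a K-theory datum (MP_ea1188_al, helper16) -/

set_option autoImplicit false

namespace KG.H16

open Matrix KG

variable {R : Type} [Ring R]
variable {ι κ : Type} [Fintype ι] [DecidableEq ι] [Fintype κ] [DecidableEq κ]

/-- reindexing as a homomorphism of monoids -/
def ri (e : ι ≃ κ) : Matrix ι ι R →* Matrix κ κ R where
  toFun M := Matrix.reindex e e M
  map_one' := by simp
  map_mul' M N := by simp [Matrix.submatrix_mul_equiv]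

lemma ri_apply (e : ι ≃ κ) (M : Matrix ι ι R) : ri e M = Matrix.reindex e e M := rfl

/-- the class of an invertible matrix over any finite index type -/
noncomputable def kc : (Matrix ι ι R)ˣ →* K1 R :=
  (k1of (Fintype.card ι)).comp (Units.map (ri (Fintype.equivFin ι)))

/-- permutations of the indices do not change the class -/
lemma k1of_perm {n : ℕ} (σ : Equiv.Perm (Fin n)) (u : GL (Fin n) R) :
    k1of n (Units.map (ri σ) u) = k1of n u := by
  have h1 : ((1 : Matrix (Fin n) (Fin n) R).submatrix σ.symm id) *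
      ((1 : Matrix (Fin n) (Fin n) R).submatrix id σ.symm) = 1 := by
    have := Matrix.submatrix_mul_equiv (1 : Matrix (Fin n) (Fin n) R)
      (1 : Matrix (Fin n) (Fin n) R) σ.symm (Equiv.refl _) σ.symm
    simp only [Equiv.coe_refl] at this
    rw [this, one_mul, Matrix.submatrix_one_equiv]
  have h2 : ((1 : Matrix (Fin n) (Fin n) R).submatrix id σ.symm) *
      ((1 : Matrix (Fin n) (Fin n) R).submatrix σ.symm id) = 1 := by
    have := Matrix.submatrix_mul_equiv (1 : Matrix (Fin n) (Fin n) R)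
      (1 : Matrix (Fin n) (Fin n) R) id σ.symm id
    rw [this, one_mul, Matrix.submatrix_id_id]
  let p : GL (Fin n) R := ⟨_, _, h1, h2⟩
  have h3 : Units.map (ri σ) u = p * u * p⁻¹ := by
    apply Units.ext
    show Matrix.reindex σ σ u.val = ((1 : Matrix (Fin n) (Fin n) R).submatrix σ.symm id) * u.val *
      ((1 : Matrix (Fin n) (Fin n) R).submatrix id σ.symm)
    ext i j
    simp [Matrix.mul_apply, Matrix.one_apply]
  rw [h3, map_mul, map_mul, map_inv, mul_right_comm, mul_inv_cancel, one_mul]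

lemma ri_ri {μ : Type} [Fintype μ] [DecidableEq μ] (e : ι ≃ κ) (f : κ ≃ μ)
    (u : (Matrix ι ι R)ˣ) :
    Units.map (ri f) (Units.map (ri e) u) = Units.map (ri (e.trans f)) u := by
  apply Units.ext
  rfl

lemma kc_eq {n : ℕ} (e : ι ≃ Fin n) (u : (Matrix ι ι R)ˣ) :
    k1of n (Units.map (ri e) u) = kc u := by
  obtain rfl : n = Fintype.card ι := by
    rw [Fintype.card_congr e, Fintype.card_fin]
  have h1 : Units.map (ri e) u = Units.map (ri ((Fintype.equivFin ι).symm.trans e))
      (Units.map (ri (Fintype.equivFin ι)) u) := by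
    rw [ri_ri, ← Equiv.trans_assoc, Equiv.self_trans_symm, Equiv.refl_trans]
  rw [h1, k1of_perm]
  rfl

lemma kc_reindex (e : ι ≃ κ) (u : (Matrix ι ι R)ˣ) : kc (Units.map (ri e) u) = kc u := by
  show k1of (Fintype.card κ) (Units.map (ri (Fintype.equivFin κ)) (Units.map (ri e) u)) = kc u
  rw [ri_ri, kc_eq]

lemma kc_fin {n : ℕ} (u : GL (Fin n) R) : kc u = k1of n u := by
  rw [← kc_eq (Equiv.refl (Fin n)) u]
  congr 1

/-! ### Block matrices -/

/-- `diag(u, 1)` -/
def dg (κ : Type) [Fintype κ] [DecidableEq κ] (u : (Matrix ι ι R)ˣ) :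
    (Matrix (ι ⊕ κ) (ι ⊕ κ) R)ˣ where
  val := fromBlocks u.val 0 0 1
  inv := fromBlocks u.inv 0 0 1
  val_inv := by rw [fromBlocks_multiply]; simp
  inv_val := by rw [fromBlocks_multiply]; simp

lemma kc_dg (u : (Matrix ι ι R)ˣ) : kc (dg κ u) = kc u := by
  set e := Fintype.equivFin ι
  set f := Fintype.equivFin κ
  let E : ι ⊕ κ ≃ Fin (Fintype.card ι + Fintype.card κ) := (Equiv.sumCongr e f).trans finSumFinEquiv
  have h : Fintype.card ι ≤ Fintype.card ι + Fintype.card κ := Nat.le_add_right _ _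
  have h1 : Units.map (ri E) (dg κ u) = stabHom R _ _ h (Units.map (ri e) u) := by
    apply Units.ext
    show Matrix.reindex E E (fromBlocks u.val 0 0 1) = stab h (Matrix.reindex e e u.val)
    ext i j
    obtain ⟨i, rfl⟩ := E.surjective i
    obtain ⟨j, rfl⟩ := E.surjective j
    rcases i with i | i <;> rcases j with j | j
    · simp [stab, E]
    · simp [stab, E, Fin.ext_iff]
      omega
    · simp [stab, E, Fin.ext_iff]
      omega
    · by_cases hij : i = j
      · subst hij
        simp [stab, E]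
      · have hij' : (f i : ℕ) ≠ f j := fun h => hij (f.injective (Fin.ext h))
        simp [stab, E, Matrix.one_apply, Fin.ext_iff, hij, hij']
  rw [← kc_eq E, h1, k1of_stab, kc_eq]

/-- upper unipotent -/
def uU (B : Matrix ι κ R) : (Matrix (ι ⊕ κ) (ι ⊕ κ) R)ˣ where
  val := fromBlocks 1 B 0 1
  inv := fromBlocks 1 (-B) 0 1
  val_inv := by rw [fromBlocks_multiply]; simp
  inv_val := by rw [fromBlocks_multiply]; simp

/-- lower unipotent -/
def uL (C : Matrix κ ι R) : (Matrix (ι ⊕ κ) (ι ⊕ κ) R)ˣ where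
  val := fromBlocks 1 0 C 1
  inv := fromBlocks 1 0 (-C) 1
  val_inv := by rw [fromBlocks_multiply]; simp
  inv_val := by rw [fromBlocks_multiply]; simp

lemma kc_comm (B : Matrix ι κ R) (C : Matrix κ ι R) (h : C * B = 0) (v : (Matrix ι ι R)ˣ)
    (hv : v.val = 1 + B * C) : kc v = 1 := by
  have h1 : dg κ v = uU B * uL C * (uU B)⁻¹ * (uL C)⁻¹ := by
    apply Units.ext
    show fromBlocks v.val 0 0 1 = fromBlocks 1 B 0 1 * fromBlocks 1 0 C 1 *
      fromBlocks 1 (-B) 0 1 * fromBlocks 1 0 (-C) 1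
    rw [fromBlocks_multiply, fromBlocks_multiply, fromBlocks_multiply, hv]
    have h2 : B * C * B = 0 := by rw [Matrix.mul_assoc, h, Matrix.mul_zero]
    congr 1 <;> simp [h, h2, Matrix.add_mul]
  rw [← kc_dg (κ := κ) v, h1, map_mul, map_mul, map_mul, map_inv, map_inv]
  rw [mul_right_comm (kc (uU B)), mul_inv_cancel, one_mul, mul_inv_cancel]

lemma kc_uU (B : Matrix ι κ R) : kc (uU B) = 1 := by
  refine kc_comm (ι := ι ⊕ κ) (κ := κ) (fromRows B 0) (fromCols 0 1) ?_ _ ?_
  · rw [fromCols_mul_fromRows]; simp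
  · show fromBlocks 1 B 0 1 = _
    rw [fromRows_mul_fromCols, ← fromBlocks_one, fromBlocks_add]
    simp

/-- `diag(1, u)` -/
def dg' (ι : Type) [Fintype ι] [DecidableEq ι] (u : (Matrix κ κ R)ˣ) :
    (Matrix (ι ⊕ κ) (ι ⊕ κ) R)ˣ where
  val := fromBlocks 1 0 0 u.val
  inv := fromBlocks 1 0 0 u.inv
  val_inv := by rw [fromBlocks_multiply]; simp
  inv_val := by rw [fromBlocks_multiply]; simp

lemma kc_dg' (u : (Matrix κ κ R)ˣ) : kc (dg' ι u) = kc u := by
  have h1 : dg' ι u = Units.map (ri (Equiv.sumComm κ ι)) (dg ι u) := by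
    apply Units.ext
    show fromBlocks 1 0 0 u.val = Matrix.reindex (Equiv.sumComm κ ι) (Equiv.sumComm κ ι)
      (fromBlocks u.val 0 0 1)
    ext i j
    rcases i with i | i <;> rcases j with j | j <;> simp
  rw [h1, kc_reindex, kc_dg]

/-! ### The class function -/

open Classical in
/-- the class of a matrix -/
noncomputable def cl (M : Matrix ι ι R) : Additive (K1 R) :=
  if h : IsUnit M then Additive.ofMul (kc h.unit) else 0

lemma cl_unit (u : (Matrix ι ι R)ˣ) : cl u.val = Additive.ofMul (kc u) := by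
  unfold cl
  rw [dif_pos u.isUnit]
  congr 2
  exact Units.ext u.isUnit.unit_spec

lemma cl_mul {M N : Matrix ι ι R} (hM : IsUnit M) (hN : IsUnit N) :
    cl (M * N) = cl M + cl N := by
  obtain ⟨u, rfl⟩ := hM
  obtain ⟨v, rfl⟩ := hN
  rw [← Units.val_mul, cl_unit, cl_unit, cl_unit, map_mul, ofMul_mul]

lemma cl_one : cl (1 : Matrix ι ι R) = 0 := by
  rw [← Units.val_one, cl_unit, map_one, ofMul_one]

lemma cl_conj (g h M : Matrix ι ι R) (h1 : g * h = 1) (h2 : h * g = 1) (hM : IsUnit M) :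
    cl (g * M * h) = cl M := by
  let u : (Matrix ι ι R)ˣ := ⟨g, h, h1, h2⟩
  have hg : IsUnit g := ⟨u, rfl⟩
  have hh : IsUnit h := ⟨u⁻¹, rfl⟩
  rw [cl_mul (hg.mul hM) hh, cl_mul hg hM, add_right_comm, ← cl_mul hg hh, h1, cl_one, zero_add]

lemma cl_reindex (e : ι ≃ κ) (M : Matrix ι ι R) (hM : IsUnit M) :
    cl (Matrix.reindex e e M) = cl M := by
  obtain ⟨u, rfl⟩ := hM
  rw [cl_unit, ← kc_reindex e u, ← cl_unit]
  rfl

lemma cl_uU (B : Matrix ι κ R) : cl (fromBlocks 1 B 0 1 : Matrix (ι ⊕ κ) (ι ⊕ κ) R) = 0 := by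
  have := cl_unit (uU B)
  rw [kc_uU, ofMul_one] at this
  exact this

lemma cl_tri (A : Matrix ι ι R) (B : Matrix ι κ R) (D : Matrix κ κ R) (hA : IsUnit A)
    (hD : IsUnit D) : cl (fromBlocks A B 0 D) = cl A + cl D := by
  obtain ⟨a, rfl⟩ := hA
  obtain ⟨d, rfl⟩ := hD
  have h1 : fromBlocks a.val B 0 d.val = (dg κ a).val * (uU (a.inv * B * d.inv)).val *
      (dg' ι d).val := by
    show _ = fromBlocks a.val 0 0 1 * fromBlocks 1 (a.inv * B * d.inv) 0 1 *
      fromBlocks 1 0 0 d.val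
    rw [fromBlocks_multiply, fromBlocks_multiply]
    congr 1
    · simp
    · simp only [Matrix.mul_zero, add_zero, zero_add, Matrix.mul_one]
      rw [← Matrix.mul_assoc, ← Matrix.mul_assoc, a.val_inv, Matrix.one_mul, Matrix.mul_assoc,
        d.inv_val, Matrix.mul_one]
    · simp
    · simp
  rw [h1, cl_mul ((dg κ a).isUnit.mul (uU _).isUnit) (dg' ι d).isUnit,
    cl_mul (dg κ a).isUnit (uU _).isUnit, cl_unit, cl_unit, cl_unit, kc_dg, kc_uU, kc_dg',
    ofMul_one, add_zero, cl_unit, cl_unit]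

lemma cl_lin [CharP R 2] (V0 V1 : Matrix ι ι R) (h : LinC .unit V0 V1) :
    (2 : ℕ) • cl (V0 + V1) = (2 : ℕ) • cl V0 := by
  obtain ⟨W0, W1, h1, h2, h3, h4, h5, h6⟩ := h
  have hchar : ∀ x : Matrix ι ι R, x + x = 0 := fun x => by
    ext i j
    exact CharTwo.add_self_eq_zero _
  set ν := W0 * V1 with hν
  have hV0 : IsUnit V0 := ⟨⟨V0, W0, h1, h2⟩, rfl⟩
  have hW : V1 * W0 = -(V0 * W1) := eq_neg_of_add_eq_zero_right h3
  have hνν : ν * ν = 0 := by
    calc ν * ν = W0 * (V1 * W0) * V1 := by rw [hν]; noncomm_ring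
      _ = -((W0 * V0) * (W1 * V1)) := by rw [hW]; noncomm_ring
      _ = 0 := by rw [h6, mul_zero, neg_zero]
  have hsq : (1 + ν) * (1 + ν) = 1 := by
    have : (1 + ν) * (1 + ν) = 1 + (ν + ν) + ν * ν := by noncomm_ring
    rw [this, hchar, hνν, add_zero, add_zero]
  have hu : IsUnit (1 + ν) := ⟨⟨1 + ν, 1 + ν, hsq, hsq⟩, rfl⟩
  have he : V0 + V1 = V0 * (1 + ν) := by
    rw [mul_add, mul_one, hν, ← mul_assoc, h1, one_mul]
  have h7 : (2 : ℕ) • cl (1 + ν) = 0 := by
    rw [two_nsmul, ← cl_mul hu hu, hsq, cl_one]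
  rw [he, cl_mul hV0 hu, smul_add, h7, add_zero]

/-- elementary matrices have trivial class -/
lemma cl_elem {i j : ι} (hij : i ≠ j) (r : R) : cl (1 + Matrix.single i j r) = 0 := by
  let e : {x // x = i} ⊕ {x // ¬ x = i} ≃ ι := Equiv.sumCompl (fun x => x = i)
  let B : Matrix {x // x = i} {x // ¬ x = i} R := fun _ x => if (x : ι) = j then r else 0
  have h1 : (1 + Matrix.single i j r : Matrix ι ι R) =
      Matrix.reindex e e (fromBlocks 1 B 0 1) := by
    ext a b
    obtain ⟨a, rfl⟩ := e.surjective a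
    obtain ⟨b, rfl⟩ := e.surjective b
    rw [Matrix.reindex_apply, Matrix.submatrix_apply, Equiv.symm_apply_apply,
      Equiv.symm_apply_apply]
    rcases a with ⟨a, rfl⟩ | ⟨a, ha⟩ <;> rcases b with ⟨b, hb⟩ | ⟨b, hb⟩
    · subst hb
      simp [e, hij.symm]
    · have hb' : a ≠ b := fun h => hb h.symm
      simp [e, B, Matrix.single_apply, Matrix.one_apply, hb', eq_comm]
    · subst hb
      have ha' : b ≠ a := fun h => ha h.symm
      simp [e, Matrix.single_apply, ha, ha']
    · have ha' : ¬ i = a := fun h => ha h.symm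
      simp [e, Matrix.one_apply, Matrix.single_apply, ha']
  rw [h1, cl_reindex e (fromBlocks 1 B 0 1) (uU B).isUnit, cl_uU]

lemma zmod_two_eq : ∀ x : ZMod 2, x ≠ 0 → x = 1 := by decide

lemma cl_field [Algebra (ZMod 2) R] (M : Matrix ι ι (ZMod 2)) (hM : IsUnit M) :
    cl (M.map (algebraMap (ZMod 2) R)) = 0 := by
  haveI : Fact (Nat.Prime 2) := ⟨Nat.prime_two⟩
  have hdet : M.det ≠ 0 := ((Matrix.isUnit_iff_isUnit_det M).1 hM).ne_zero
  refine Matrix.diagonal_transvection_induction_of_det_ne_zero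
    (fun M => cl (M.map (algebraMap (ZMod 2) R)) = 0) M hdet ?_ ?_ ?_
  · intro D hD
    have h1 : ∀ i, D i = 1 := by
      intro i
      rw [Matrix.det_diagonal] at hD
      have h2 : D i ≠ 0 := fun h => hD (Finset.prod_eq_zero (Finset.mem_univ i) h)
      exact zmod_two_eq _ h2
    have h2 : D = fun _ => 1 := funext h1
    rw [h2, Matrix.diagonal_one, Matrix.map_one _ (map_zero _) (map_one _), cl_one]
  · intro t
    have h1 : t.toMatrix.map (algebraMap (ZMod 2) R) =
        1 + Matrix.single t.i t.j (algebraMap (ZMod 2) R t.c) := by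
      ext a b
      simp [Matrix.TransvectionStruct.toMatrix, Matrix.transvection, Matrix.one_apply,
        Matrix.single_apply, apply_ite (algebraMap (ZMod 2) R)]
    rw [h1, cl_elem t.hij]
  · intro A B hA hB h1 h2
    have hA' : IsUnit (A.map (algebraMap (ZMod 2) R)) :=
      ((Matrix.isUnit_iff_isUnit_det A).2 (isUnit_iff_ne_zero.2 hA)).map
        (algebraMap (ZMod 2) R).mapMatrix
    have hB' : IsUnit (B.map (algebraMap (ZMod 2) R)) :=
      ((Matrix.isUnit_iff_isUnit_det B).2 (isUnit_iff_ne_zero.2 hB)).map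
        (algebraMap (ZMod 2) R).mapMatrix
    rw [Matrix.map_mul, cl_mul hA' hB', h1, h2, add_zero]

/-- the datum given by `K₁` -/
noncomputable def k1T (R : Type) [Ring R] [CharP R 2] : KT .unit R where
  K := Additive (K1 R)
  inst := inferInstance
  cls := cl
  conj := fun g h M h1 h2 hM => cl_conj g h M h1 h2 hM
  tri := fun A B D hA hD _ => cl_tri A B D hA hD
  rein := fun e M hM => cl_reindex e M hM
  lin := fun V0 V1 h => cl_lin V0 V1 h

theorem k1 : K1S := by
  intro R _ _
  rcases subsingleton_or_nontrivial R with hR | hR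
  · -- the zero ring
    have hz : ∀ x : R, x = 0 := fun x => Subsingleton.elim _ _
    have hcl : ∀ {ι : Type} [Fintype ι] [DecidableEq ι] (M : Matrix ι ι R), cl M = 0 := by
      intro ι _ _ M
      have : M = 1 := Subsingleton.elim _ _
      rw [this, cl_one]
    refine ⟨⟨Additive (K1 R), inferInstance, fun M => cl M, ?_, ?_, ?_, ?_⟩, AddMonoidHom.id _,
      ?_, ?_⟩
    · intros; simp only [hcl]
    · intros; simp only [hcl, add_zero]
    · intros; simp only [hcl]
    · intros; simp only [hcl]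
    · intro n u
      show cl u.val = _
      rw [cl_unit, kc_fin]
    · intro ι _ _ M _
      exact hcl _
  · haveI : CharP R 2 := charP_of_injective_algebraMap (algebraMap (ZMod 2) R).injective 2
    refine ⟨k1T R, AddMonoidHom.id _, ?_, ?_⟩
    · intro n u
      show cl u.val = _
      rw [cl_unit, kc_fin]
    · intro ι _ _ M hM
      exact cl_field M hM

end KG.H16
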